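import Pool.Agent.H365.TF.Stm2

/-!
# Project TF, part 2 (helper365), task VG (helper385): the triangular group over `M_9(ℤ[H])` is
virtually residually a finite `ℓ`-group
-/

set_option autoImplicit false

namespace Pool.Agent.H365.TF

namespace VGL

noncomputable section

/-- functoriality of the triangular groups -/
def triMap {S S' : Type} [Ring S] [Ring S'] (f : S →+* S') : Tri S →* Tri S' where
  toFun u := ⟨Units.map f.toMonoidHom u.g, f u.x, Units.map f.toMonoidHom u.h⟩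
  map_one' := by
    refine Tri.ext ?_ ?_ ?_
    · exact map_one _
    · exact map_zero f
    · exact map_one _
  map_mul' u v := by
    refine Tri.ext ?_ ?_ ?_
    · exact map_mul (Units.map f.toMonoidHom) u.g v.g
    · show f ((u.g : S) * v.x + u.x * (v.h : S)) = f (u.g : S) * f v.x + f u.x * f (v.h : S)
      rw [map_add, map_mul, map_mul]
    · exact map_mul (Units.map f.toMonoidHom) u.h v.h

theorem tri_finite (S : Type) [Ring S] [Finite S] : Finite (Tri S) := by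
  refine Finite.of_injective (fun u : Tri S => ((u.g, u.x, u.h) : Sˣ × S × Sˣ)) fun u v h => ?_
  have h1 := congrArg Prod.fst h
  have h2 := congrArg (fun z => z.2.1) h
  have h3 := congrArg (fun z => z.2.2) h
  exact Tri.ext h1 h2 h3

theorem pow_gh {S : Type} [Ring S] (u : Tri S) (n : ℕ) :
    (u ^ n).g = u.g ^ n ∧ (u ^ n).h = u.h ^ n := by
  induction n with
  | zero =>
    rw [pow_zero, pow_zero, pow_zero]
    exact ⟨rfl, rfl⟩
  | succ n ih =>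
    obtain ⟨h1, h2⟩ := ih
    rw [pow_succ, pow_succ, pow_succ]
    exact ⟨by rw [Tri.mul_g, h1], by rw [Tri.mul_h, h2]⟩

theorem pow_x {S : Type} [Ring S] (u : Tri S) (hg : u.g = 1) (hh : u.h = 1) (n : ℕ) :
    (u ^ n).x = n • u.x := by
  induction n with
  | zero =>
    rw [pow_zero, zero_smul]
    rfl
  | succ n ih =>
    obtain ⟨h1, -⟩ := pow_gh u n
    rw [pow_succ, Tri.mul_x, h1, hg, hh, ih, one_pow, Units.val_one, one_mul, mul_one, add_smul,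
      one_smul, add_comm]

variable {H : Type} [Group H]

/-- reduction of the matrices -/
def rm (q : ℕ) (M : Subgroup H) [M.Normal] :
    M9 (MonoidAlgebra ℤ H) →+* M9 (MonoidAlgebra (ZMod q) (H ⧸ M)) :=
  ((red q M).mapMatrix (m := Fin 3)).mapMatrix (m := Fin 3)

theorem fin_m9 (q : ℕ) [NeZero q] (M : Subgroup H) [M.Normal] [M.FiniteIndex] :
    Finite (M9 (MonoidAlgebra (ZMod q) (H ⧸ M))) := by
  have h1 : Finite (ZMod q) := inferInstance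
  have h2 : Finite (H ⧸ M) := inferInstance
  have h4 : Finite (MonoidAlgebra (ZMod q) (H ⧸ M)) :=
    Finite.of_injective (fun (y : MonoidAlgebra (ZMod q) (H ⧸ M)) (a : H ⧸ M) => y.coeff a)
      (DFunLike.coe_injective.comp MonoidAlgebra.coeff_injective)
  infer_instance

/-- the congruence subgroups -/
def C (q : ℕ) (M : Subgroup H) [M.Normal] : Subgroup (Tri (M9 (MonoidAlgebra ℤ H))) :=
  (triMap (rm q M)).ker

instance (q : ℕ) (M : Subgroup H) [M.Normal] : (C q M).Normal := by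
  unfold C
  infer_instance

theorem C_fin (q : ℕ) [NeZero q] (M : Subgroup H) [M.Normal] [M.FiniteIndex] :
    (C q M).FiniteIndex := by
  have := fin_m9 q M
  have := tri_finite (M9 (MonoidAlgebra (ZMod q) (H ⧸ M)))
  unfold C
  infer_instance

/-- the reductions factor -/
def fac {ℓ j : ℕ} (hj : ℓ ∣ ℓ ^ j) {M N : Subgroup H} [M.Normal] [N.Normal] (h : M ≤ N) :
    MonoidAlgebra (ZMod (ℓ ^ j)) (H ⧸ M) →+* MonoidAlgebra (ZMod ℓ) (H ⧸ N) :=
  (MonoidAlgebra.mapDomainRingHom (ZMod ℓ) (QuotientGroup.map M N (MonoidHom.id H) h)).comp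
    (MonoidAlgebra.mapRingHom (H ⧸ M) (ZMod.castHom hj (ZMod ℓ)))

theorem fac_red {ℓ j : ℕ} (hj : ℓ ∣ ℓ ^ j) {M N : Subgroup H} [M.Normal] [N.Normal] (h : M ≤ N) :
    (fac hj h).comp (red (ℓ ^ j) M) = red ℓ N := by
  refine MonoidAlgebra.ringHom_ext (fun r => ?_) (fun m => ?_)
  · simp [fac, red]
  · simp only [fac, red, RingHom.comp_apply, MonoidAlgebra.mapRingHom_single, map_one,
      MonoidAlgebra.mapDomainRingHom_apply, MonoidAlgebra.mapDomain_single]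
    rfl

theorem C_le {ℓ j : ℕ} (hj : ℓ ∣ ℓ ^ j) {M N : Subgroup H} [M.Normal] [N.Normal] (h : M ≤ N) :
    C (ℓ ^ j) M ≤ C ℓ N := by
  intro u hu
  have h1 : triMap (rm (ℓ ^ j) M) u = 1 := hu
  have h2 : ∀ y : M9 (MonoidAlgebra ℤ H), rm ℓ N y =
      (((fac hj h).mapMatrix (m := Fin 3)).mapMatrix (m := Fin 3)) (rm (ℓ ^ j) M y) := by
    intro y
    refine Matrix.ext fun a b => Matrix.ext fun c d => ?_
    show red ℓ N (y a b c d) = fac hj h (red (ℓ ^ j) M (y a b c d))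
    rw [← fac_red hj h]
    rfl
  have h3 : triMap (rm ℓ N) u =
      triMap (((fac hj h).mapMatrix (m := Fin 3)).mapMatrix (m := Fin 3))
        (triMap (rm (ℓ ^ j) M) u) := by
    refine Tri.ext ?_ ?_ ?_
    · exact Units.ext (h2 _)
    · exact h2 _
    · exact Units.ext (h2 _)
  show triMap (rm ℓ N) u = 1
  rw [h3, h1, map_one]

/-- powers of the matrices -/
theorem unit_pow (hLG : S_LG) (ℓ : ℕ) [Fact ℓ.Prime] (N M : Subgroup H) [N.Normal] [M.Normal]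
    [M.FiniteIndex] (hMN : M ≤ N) (hk : ∃ k : ℕ, M.relIndex N = ℓ ^ k) (j : ℕ)
    (g : (M9 (MonoidAlgebra ℤ H))ˣ) (hg : rm ℓ N (g : M9 (MonoidAlgebra ℤ H)) = 1) :
    ∃ m : ℕ, rm (ℓ ^ j) M ((g ^ (ℓ ^ m) : (M9 (MonoidAlgebra ℤ H))ˣ) :
      M9 (MonoidAlgebra ℤ H)) = 1 := by
  let φ : (M9 (MonoidAlgebra ℤ H))ˣ →*
      (Matrix (Fin 3 × Fin 3) (Fin 3 × Fin 3) (MonoidAlgebra ℤ H))ˣ :=
    Units.map (Matrix.compRingEquiv (Fin 3) (Fin 3) (MonoidAlgebra ℤ H)).toRingHom.toMonoidHom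
  have hφ : ∀ x : (M9 (MonoidAlgebra ℤ H))ˣ,
      ((φ x : (Matrix (Fin 3 × Fin 3) (Fin 3 × Fin 3) (MonoidAlgebra ℤ H))ˣ) :
        Matrix (Fin 3 × Fin 3) (Fin 3 × Fin 3) (MonoidAlgebra ℤ H)) =
      Matrix.compRingEquiv (Fin 3) (Fin 3) (MonoidAlgebra ℤ H) x := fun x => rfl
  have hmap : ∀ (q : ℕ) (L : Subgroup H) [L.Normal] (y : M9 (MonoidAlgebra ℤ H)),
      (Matrix.compRingEquiv (Fin 3) (Fin 3) (MonoidAlgebra ℤ H) y).map (red q L) =
        Matrix.compRingEquiv (Fin 3) (Fin 3) _ (rm q L y) := fun q L _ y => rfl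
  obtain ⟨m, hm⟩ := hLG ℓ H N M hMN hk j (Fin 3 × Fin 3) (φ g) (by
    rw [hφ, hmap, hg, map_one])
  refine ⟨m, ?_⟩
  rw [← map_pow, hφ, hmap] at hm
  exact (Matrix.compRingEquiv (Fin 3) (Fin 3) _).injective (by rw [hm, map_one])

theorem smul_char (q : ℕ) {Q : Type} [Group Q] (y : M9 (MonoidAlgebra (ZMod q) Q)) :
    q • y = 0 := by
  refine Matrix.ext fun a b => Matrix.ext fun c d => ?_
  show q • (y a b c d) = 0
  refine MonoidAlgebra.ext (Finsupp.ext fun h => ?_)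
  show q • ((y a b c d).coeff h) = 0
  rw [nsmul_eq_mul, ZMod.natCast_self, zero_mul]

theorem pow_in (hLG : S_LG) (ℓ : ℕ) [Fact ℓ.Prime] (N M : Subgroup H) [N.Normal] [M.Normal]
    [M.FiniteIndex] (hMN : M ≤ N) (hk : ∃ k : ℕ, M.relIndex N = ℓ ^ k) (j : ℕ)
    (u : Tri (M9 (MonoidAlgebra ℤ H))) (hu : u ∈ C ℓ N) : ∃ m : ℕ, u ^ (ℓ ^ m) ∈ C (ℓ ^ j) M := by
  have h1 : triMap (rm ℓ N) u = 1 := hu
  have hg : rm ℓ N (u.g : M9 (MonoidAlgebra ℤ H)) = 1 :=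
    congrArg (fun z : Tri (M9 (MonoidAlgebra (ZMod ℓ) (H ⧸ N))) =>
      (z.g : M9 (MonoidAlgebra (ZMod ℓ) (H ⧸ N)))) h1
  have hh : rm ℓ N (u.h : M9 (MonoidAlgebra ℤ H)) = 1 :=
    congrArg (fun z : Tri (M9 (MonoidAlgebra (ZMod ℓ) (H ⧸ N))) =>
      (z.h : M9 (MonoidAlgebra (ZMod ℓ) (H ⧸ N)))) h1
  obtain ⟨m1, hm1⟩ := unit_pow hLG ℓ N M hMN hk j u.g hg
  obtain ⟨m2, hm2⟩ := unit_pow hLG ℓ N M hMN hk j u.h hh
  have hpow : ∀ (x : (M9 (MonoidAlgebra ℤ H))ˣ) (a b : ℕ),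
      rm (ℓ ^ j) M ((x ^ (ℓ ^ a) : (M9 (MonoidAlgebra ℤ H))ˣ) : M9 (MonoidAlgebra ℤ H)) = 1 →
      rm (ℓ ^ j) M ((x ^ (ℓ ^ (a + b)) : (M9 (MonoidAlgebra ℤ H))ˣ) :
        M9 (MonoidAlgebra ℤ H)) = 1 := by
    intro x a b hx
    rw [pow_add, pow_mul, Units.val_pow_eq_pow_val (x ^ ℓ ^ a), map_pow, hx, one_pow]
  set v := triMap (rm (ℓ ^ j) M) (u ^ (ℓ ^ (m1 + m2))) with hv
  have hvg : v.g = 1 := by
    apply Units.ext
    show rm (ℓ ^ j) M (((u ^ (ℓ ^ (m1 + m2))).g : (M9 (MonoidAlgebra ℤ H))ˣ) :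
      M9 (MonoidAlgebra ℤ H)) = 1
    rw [(pow_gh u _).1]
    exact hpow u.g m1 m2 hm1
  have hvh : v.h = 1 := by
    apply Units.ext
    show rm (ℓ ^ j) M (((u ^ (ℓ ^ (m1 + m2))).h : (M9 (MonoidAlgebra ℤ H))ˣ) :
      M9 (MonoidAlgebra ℤ H)) = 1
    rw [(pow_gh u _).2, add_comm m1 m2]
    exact hpow u.h m2 m1 hm2
  refine ⟨m1 + m2 + j, ?_⟩
  show triMap (rm (ℓ ^ j) M) (u ^ (ℓ ^ (m1 + m2 + j))) = 1
  rw [pow_add ℓ (m1 + m2) j, pow_mul, map_pow, ← hv]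
  refine Tri.ext ?_ ?_ ?_
  · rw [(pow_gh v _).1, hvg, one_pow]
    rfl
  · rw [pow_x v hvg hvh, smul_char]
    rfl
  · rw [(pow_gh v _).2, hvh, one_pow]
    rfl

/-- the finite quotients are `ℓ`-groups -/
theorem rel_pow (hLG : S_LG) (ℓ : ℕ) [Fact ℓ.Prime] (N M : Subgroup H) [N.Normal] [M.Normal]
    [M.FiniteIndex] (hMN : M ≤ N) (hk : ∃ k : ℕ, M.relIndex N = ℓ ^ k) (j : ℕ) :
    ∃ k : ℕ, (C (ℓ ^ j) M).relIndex (C ℓ N) = ℓ ^ k := by
  have hℓ : ℓ ≠ 0 := (Fact.out : ℓ.Prime).ne_zero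
  have : NeZero (ℓ ^ j) := ⟨pow_ne_zero _ hℓ⟩
  have := C_fin (ℓ ^ j) M
  have hP : IsPGroup ℓ (↥(C ℓ N) ⧸ (C (ℓ ^ j) M).subgroupOf (C ℓ N)) := by
    intro g
    obtain ⟨u, rfl⟩ := QuotientGroup.mk_surjective g
    obtain ⟨m, hm⟩ := pow_in hLG ℓ N M hMN hk j u.1 u.2
    refine ⟨m, ?_⟩
    rw [← QuotientGroup.mk_pow, QuotientGroup.eq_one_iff]
    exact hm
  obtain ⟨k, hk⟩ := IsPGroup.iff_card.1 hP
  exact ⟨k, hk⟩

/-- a non-trivial element has a component which is not zero -/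
theorem sep0 {S : Type} [Ring S] {u : Tri S} (hu : u ≠ 1) : ∃ y : S, y ≠ 0 ∧
    ∀ (R : Type) [Ring R] (f : S →+* R), triMap f u = 1 → f y = 0 := by
  have hcomp : ∀ (R : Type) [Ring R] (f : S →+* R), triMap f u = 1 →
      f (u.g : S) = 1 ∧ f u.x = 0 ∧ f (u.h : S) = 1 := by
    intro R _ f h1
    exact ⟨congrArg (fun z : Tri R => (z.g : R)) h1, congrArg (fun z : Tri R => z.x) h1,
      congrArg (fun z : Tri R => (z.h : R)) h1⟩
  by_cases hg : (u.g : S) - 1 = 0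
  · by_cases hh : (u.h : S) - 1 = 0
    · by_cases hx : u.x = 0
      · exact absurd (Tri.ext (Units.ext (sub_eq_zero.1 hg)) hx (Units.ext (sub_eq_zero.1 hh))) hu
      · exact ⟨u.x, hx, fun R _ f h1 => (hcomp R f h1).2.1⟩
    · exact ⟨_, hh, fun R _ f h1 => by rw [map_sub, (hcomp R f h1).2.2, map_one, sub_self]⟩
  · exact ⟨_, hg, fun R _ f h1 => by rw [map_sub, (hcomp R f h1).1, map_one, sub_self]⟩

/-- a non-trivial element has an entry which is not zero -/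
theorem sep {u : Tri (M9 (MonoidAlgebra ℤ H))} (hu : u ≠ 1) : ∃ x : MonoidAlgebra ℤ H, x ≠ 0 ∧
    ∀ (q : ℕ) (M : Subgroup H) [M.Normal], u ∈ C q M → red q M x = 0 := by
  obtain ⟨y, hy, hf⟩ := sep0 hu
  have h1 : ∃ a b c d, y a b c d ≠ 0 := by
    by_contra hcon
    push Not at hcon
    exact hy (Matrix.ext fun a b => Matrix.ext fun c d => hcon a b c d)
  obtain ⟨a, b, c, d, h1⟩ := h1
  refine ⟨y a b c d, h1, fun q M _ hm => ?_⟩
  have h2 : rm q M y = 0 := hf _ (rm q M) hm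
  have h3 : rm q M y a b c d = 0 := by
    rw [h2]
    rfl
  exact h3

/-- non-vanishing of the reduction -/
theorem red_ne (x : MonoidAlgebra ℤ H) (h0 : H) (q : ℕ) (M : Subgroup H) [M.Normal]
    (hinj : ∀ h ∈ x.coeff.support, ((h : H) : H ⧸ M) = ((h0 : H) : H ⧸ M) → h = h0)
    (hc : ((x.coeff h0 : ℤ) : ZMod q) ≠ 0) : red q M x ≠ 0 := by
  intro h1
  apply hc
  have h2 : (red q M x).coeff = Finsupp.mapDomain (fun h : H => (h : H ⧸ M))
      (x.coeff.mapRange (Int.castRingHom (ZMod q)) (map_zero _)) := rfl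
  have h3 : (red q M x).coeff ((h0 : H) : H ⧸ M) = 0 := by
    rw [h1]
    rfl
  rw [h2, Finsupp.mapDomain, Finsupp.sum_apply, Finsupp.sum, Finset.sum_eq_single h0] at h3
  · rw [Finsupp.single_eq_same, Finsupp.mapRange_apply] at h3
    exact h3
  · intro h h4 h5
    rw [Finsupp.single_eq_of_ne]
    intro h6
    exact h5 (hinj h (Finsupp.support_mapRange h4) h6.symm)
  · intro h4
    rw [Finsupp.notMem_support_iff.1 h4, Finsupp.single_zero, Finsupp.zero_apply]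

end

end VGL

open VGL in
/-- **VG.** -/
theorem t_VG : S_LG → S_VG := by
  classical
  intro hLG ℓ _ H _ ⟨N, hN⟩
  have hℓ : ℓ.Prime := Fact.out
  have : NeZero ℓ := ⟨hℓ.ne_zero⟩
  have := hN.1
  have := hN.2.1
  refine ⟨C ℓ N, inferInstance, C_fin ℓ N, fun S hS => ?_⟩
  have hx : ∀ s : Tri (M9 (MonoidAlgebra ℤ H)), ∃ (x : MonoidAlgebra ℤ H) (h0 : H), s ∈ S →
      x.coeff h0 ≠ 0 ∧ ∀ (q : ℕ) (M : Subgroup H) [M.Normal], s ∈ C q M → red q M x = 0 := by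
    intro s
    by_cases hs : s ∈ S
    · have hs1 : s ≠ 1 := fun h => hS (h ▸ hs)
      obtain ⟨x, hx, h⟩ := sep hs1
      obtain ⟨h0, hh0⟩ : ∃ h0 : H, x.coeff h0 ≠ 0 := by
        by_contra hcon
        push Not at hcon
        exact hx (MonoidAlgebra.coeff_injective (Finsupp.ext hcon))
      exact ⟨x, h0, fun _ => ⟨hh0, h⟩⟩
    · exact ⟨0, 1, fun h => absurd h hs⟩
  choose x h0 hx using hx
  obtain ⟨M, hM, hfin, hMN, hk, hsep⟩ := hN.2.2 (S.biUnion fun s =>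
    ((x s).coeff.support.filter (fun h => h ≠ h0 s)).image (fun h => (h0 s)⁻¹ * h)) (by
      intro h1
      obtain ⟨s, -, h2⟩ := Finset.mem_biUnion.1 h1
      obtain ⟨h, h3, h4⟩ := Finset.mem_image.1 h2
      exact (Finset.mem_filter.1 h3).2 (inv_mul_eq_one.1 h4).symm)
  set j : ℕ := 1 + ∑ s ∈ S, ((x s).coeff (h0 s)).natAbs with hj
  have hdvd : ℓ ∣ ℓ ^ j := dvd_pow_self ℓ (by omega)
  have : NeZero (ℓ ^ j) := ⟨pow_ne_zero _ hℓ.ne_zero⟩
  refine ⟨C (ℓ ^ j) M, inferInstance, C_fin (ℓ ^ j) M, C_le hdvd hMN,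
    rel_pow hLG ℓ N M hMN hk j, fun s hs hmem => ?_⟩
  obtain ⟨h1, h2⟩ := hx s hs
  refine red_ne (x s) (h0 s) (ℓ ^ j) M ?_ ?_ (h2 (ℓ ^ j) M hmem)
  · intro h h3 h4
    by_contra hne
    refine hsep ((h0 s)⁻¹ * h) (Finset.mem_biUnion.2 ⟨s, hs, Finset.mem_image.2
      ⟨h, Finset.mem_filter.2 ⟨h3, hne⟩, rfl⟩⟩) ?_
    exact QuotientGroup.eq.1 h4.symm
  · intro h3
    rw [ZMod.intCast_zmod_eq_zero_iff_dvd] at h3
    have h4 := Int.natAbs_dvd_natAbs.2 h3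
    rw [Int.natAbs_natCast] at h4
    have h5 := Nat.le_of_dvd (Int.natAbs_pos.2 h1) h4
    have h6 : ((x s).coeff (h0 s)).natAbs ≤ ∑ s ∈ S, ((x s).coeff (h0 s)).natAbs :=
      Finset.single_le_sum (f := fun s => ((x s).coeff (h0 s)).natAbs)
        (fun _ _ => Nat.zero_le _) hs
    have h7 : j < ℓ ^ j := Nat.lt_pow_self hℓ.one_lt
    omega

end Pool.Agent.H365.TF
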